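import Pool.Agent.H26.Lib.R_seed8.W540.BE.BesselG

set_option autoImplicit false

/-!
# From natural densities to the edge, general arithmetic functions
-/

namespace Pool.Agent.W540.BE

open Complex Filter Topology ComplexConjugate Pool.Agent.H341R2 MeasureTheory

/-- the indicator function of the primes -/
noncomputable def ip (n : ℕ) : ℂ :=
  open scoped Classical in if n.Prime then 1 else 0

theorem norm_ip_le (n : ℕ) : ‖ip n‖ ≤ 1 := by
  unfold ip
  split_ifs <;> simp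

section

variable {G : ℕ → ℂ} {B : ℝ}

theorem sum_norm_le (hG : ∀ n, ‖G n‖ ≤ B) (n : ℕ) :
    ∑ k ∈ Finset.Icc 1 n, ‖G k‖ ≤ B * n := by
  calc ∑ k ∈ Finset.Icc 1 n, ‖G k‖ ≤ ∑ k ∈ Finset.Icc 1 n, B :=
        Finset.sum_le_sum fun k _ => hG k
    _ = B * n := by simp [mul_comm]

theorem sum_norm_bigO (hG : ∀ n, ‖G n‖ ≤ B) :
    (fun n : ℕ => ∑ k ∈ Finset.Icc 1 n, ‖G k‖) =O[atTop] fun n : ℕ => (n : ℝ) ^ (1 : ℝ) := by
  refine Asymptotics.IsBigO.of_bound B (Filter.Eventually.of_forall fun n => ?_)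
  rw [Real.rpow_one, Real.norm_eq_abs, Real.norm_eq_abs,
    abs_of_nonneg (Finset.sum_nonneg fun k _ => norm_nonneg _), abs_of_nonneg (Nat.cast_nonneg n)]
  exact sum_norm_le hG n

theorem LSeries_int (hG : ∀ n, ‖G n‖ ≤ B) {s : ℂ} (hs : 1 < s.re) :
    LSeries G s = s * ∫ t in Set.Ioi (1 : ℝ),
      (∑ k ∈ Finset.Icc 1 ⌊t⌋₊, G k) * (t : ℂ) ^ (-(s + 1)) :=
  LSeries_eq_mul_integral' _ zero_le_one hs (sum_norm_bigO hG)

end

theorem sum_ip_eq (N : ℕ) :
    ∑ k ∈ Finset.Icc 1 N, ip k = (Nat.primeCounting N : ℂ) := by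
  classical
  have h0 : ∑ k ∈ Finset.Icc 1 N, ip k = ∑ k ∈ Finset.range (N + 1), ip k := by
    rw [Finset.range_eq_Ico, Finset.sum_eq_sum_Ico_succ_bot (Nat.succ_pos N)]
    have : ip 0 = 0 := by
      unfold ip
      rw [if_neg Nat.not_prime_zero]
    rw [this, zero_add]
    rfl
  rw [h0]
  have h : ∀ k : ℕ, ip k = if k.Prime then (1 : ℂ) else 0 := by
    intro k
    unfold ip
    split_ifs <;> rfl
  simp only [h]
  rw [← Finset.sum_filter, Finset.sum_const, nsmul_eq_mul, mul_one, Nat.primeCounting,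
    Nat.primeCounting', Nat.count_eq_card_filter_range]

theorem LSeries_ip (s : ℂ) :
    LSeries ip s = ∑' p : Nat.Primes, ((p : ℕ) : ℂ) ^ (-s) := by
  rw [LSeries]
  have hinj : Function.Injective (fun p : Nat.Primes => (p : ℕ)) := Subtype.val_injective
  have hsupp : Function.support (LSeries.term ip s) ⊆
      Set.range (fun p : Nat.Primes => (p : ℕ)) := by
    intro n hn
    by_contra h
    apply hn
    have hnp : ¬ n.Prime := fun hp => h ⟨⟨n, hp⟩, rfl⟩
    rw [LSeries.term_def, ip, if_neg hnp]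
    simp
  rw [← hinj.tsum_eq hsupp]
  refine tsum_congr fun p => ?_
  rw [LSeries.term_of_ne_zero p.2.ne_zero, ip, if_pos p.2, Complex.cpow_neg, one_div]

theorem LSeries_ip_real {ε : ℝ} : LSeries ip ((1 + ε : ℝ) : ℂ) = (lam ε : ℂ) := by
  rw [LSeries_ip, lam, Complex.ofReal_tsum]
  refine tsum_congr fun p => ?_
  rw [Complex.ofReal_cpow (by positivity)]
  push_cast
  rfl

theorem lam_int {ε : ℝ} (hε : 0 < ε) :
    lam ε = (1 + ε) * ∫ t in Set.Ioi (1 : ℝ), (Nat.primeCounting ⌊t⌋₊ : ℝ) * t ^ (-(2 + ε)) := by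
  have h1 := LSeries_int (G := ip) (B := 1) norm_ip_le (s := (1 + ε : ℝ))
    (by simp; linarith)
  have h3 : ∫ t in Set.Ioi (1 : ℝ), (∑ k ∈ Finset.Icc 1 ⌊t⌋₊, ip k) *
      (t : ℂ) ^ (-(((1 + ε : ℝ) : ℂ) + 1)) =
      ((∫ t in Set.Ioi (1 : ℝ), (Nat.primeCounting ⌊t⌋₊ : ℝ) * t ^ (-(2 + ε)) : ℝ) : ℂ) := by
    refine Eq.trans ?_ (integral_ofReal (𝕜 := ℂ))
    refine setIntegral_congr_fun measurableSet_Ioi fun t ht => ?_
    have ht' : (0 : ℝ) ≤ t := by
      have : (1 : ℝ) < t := ht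
      linarith
    show (∑ k ∈ Finset.Icc 1 ⌊t⌋₊, ip k) * (t : ℂ) ^ (-(((1 + ε : ℝ) : ℂ) + 1)) = _
    rw [sum_ip_eq]
    have h5 : (((t ^ (-(2 + ε)) : ℝ)) : ℂ) = (t : ℂ) ^ (-(((1 + ε : ℝ) : ℂ) + 1)) := by
      rw [Complex.ofReal_cpow ht']
      congr 1
      push_cast
      ring
    rw [← h5]
    push_cast
    rfl
  rw [LSeries_ip_real, h3, ← Complex.ofReal_mul] at h1
  exact_mod_cast h1

theorem integrable_pi {ε : ℝ} (hε : 0 < ε) :
    IntegrableOn (fun t : ℝ => (Nat.primeCounting ⌊t⌋₊ : ℝ) * t ^ (-(2 + ε))) (Set.Ioi 1) := by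
  have h1 : IntegrableOn (fun t : ℝ => t ^ (-(1 + ε))) (Set.Ioi 1) :=
    integrableOn_Ioi_rpow_of_lt (by linarith) one_pos
  refine Integrable.mono' h1 ?_ ?_
  · refine Measurable.aestronglyMeasurable ?_
    refine Measurable.mul ?_ (measurable_id.pow_const _)
    exact (measurable_of_countable (fun n : ℕ => (Nat.primeCounting n : ℝ))).comp
      Nat.measurable_floor
  · rw [ae_restrict_iff' measurableSet_Ioi]
    refine Filter.Eventually.of_forall fun t ht => ?_
    have ht1 : (1 : ℝ) < t := ht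
    have ht0 : (0 : ℝ) < t := by linarith
    rw [Real.norm_eq_abs, abs_of_nonneg (by positivity)]
    have h2 : (Nat.primeCounting ⌊t⌋₊ : ℝ) ≤ t := by
      have h3 : Nat.primeCounting ⌊t⌋₊ ≤ ⌊t⌋₊ := by
        rw [Nat.primeCounting, Nat.primeCounting', Nat.count_eq_card_filter_range]
        calc ((Finset.range (⌊t⌋₊ + 1)).filter Nat.Prime).card
            ≤ (Finset.Icc 1 ⌊t⌋₊).card := by
              apply Finset.card_le_card
              intro x hx
              rw [Finset.mem_filter, Finset.mem_range] at hx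
              rw [Finset.mem_Icc]
              exact ⟨hx.2.pos, by omega⟩
          _ = ⌊t⌋₊ := by simp
      calc (Nat.primeCounting ⌊t⌋₊ : ℝ) ≤ (⌊t⌋₊ : ℝ) := by exact_mod_cast h3
        _ ≤ t := Nat.floor_le ht0.le
    calc (Nat.primeCounting ⌊t⌋₊ : ℝ) * t ^ (-(2 + ε)) ≤ t * t ^ (-(2 + ε)) :=
          mul_le_mul_of_nonneg_right h2 (by positivity)
      _ = t ^ (-(1 + ε)) := by
          rw [← Real.rpow_one_add' ht0.le (by linarith)]
          congr 1
          ring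

theorem integral_rpow_le {ε : ℝ} (hε : 0 < ε) :
    ∫ t in Set.Ioi (1 : ℝ), t ^ (-(2 + ε)) ≤ 1 := by
  rw [integral_Ioi_rpow_of_lt (by linarith) one_pos, Real.one_rpow]
  rw [neg_div, ← div_neg]
  rw [div_le_one (by linarith)]
  linarith

/-- a bounded function with small partial sums (compared to `π(N)`) has small `L`-series at the
edge -/
theorem abelG (G : ℕ → ℂ) (B : ℝ) (hg : ∀ n, ‖G n‖ ≤ B)
    (hS : Tendsto (fun N : ℕ => (∑ n ∈ Finset.Icc 1 N, G n) /
      (Nat.primeCounting N : ℂ)) atTop (𝓝 0)) (τ : ℝ) :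
    Tendsto (fun ε : ℝ => (LSeries G (1 + ε + τ * I)).re / lam ε) (𝓝[>] 0) (𝓝 0) := by
  have hB : 0 ≤ B := (norm_nonneg _).trans (hg 2)
  -- bound for the partial sums
  have hpart : ∀ η : ℝ, 0 < η → ∃ C : ℝ, 0 ≤ C ∧ ∀ N : ℕ,
      ‖∑ k ∈ Finset.Icc 1 N, G k‖ ≤ η * Nat.primeCounting N + C := by
    intro η hη
    have h1 := (Metric.tendsto_nhds.1 hS) η hη
    obtain ⟨N0, hN0⟩ := Filter.eventually_atTop.1 h1
    refine ⟨B * (N0 + 2), by positivity, fun N => ?_⟩
    by_cases hN : N0 + 2 ≤ N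
    · have h2 := hN0 N (by omega)
      rw [dist_zero_right, norm_div] at h2
      have hpi : 0 < Nat.primeCounting N := by
        rw [Nat.pos_iff_ne_zero, Ne, Nat.primeCounting_eq_zero_iff]
        omega
      have hpi' : (0 : ℝ) < ‖(Nat.primeCounting N : ℂ)‖ := by
        rw [norm_pos_iff]
        exact_mod_cast hpi.ne'
      rw [div_lt_iff₀ hpi', Complex.norm_natCast] at h2
      have : 0 ≤ B * ((N0 : ℝ) + 2) := by positivity
      linarith
    · have h2 : ‖∑ k ∈ Finset.Icc 1 N, G k‖ ≤ B * N :=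
        (norm_sum_le _ _).trans (sum_norm_le hg N)
      have h3 : (N : ℝ) ≤ N0 + 2 := by
        have : N ≤ N0 + 2 := by omega
        exact_mod_cast this
      have h4 : 0 ≤ η * Nat.primeCounting N := by positivity
      nlinarith
  have hmain : ∀ η : ℝ, 0 < η → ∃ C : ℝ, 0 ≤ C ∧ ∀ ε : ℝ, 0 < ε → ε < 1 →
      |(LSeries G (1 + ε + τ * I)).re| ≤ (2 + |τ|) * (η * lam ε + C) := by
    intro η hη
    obtain ⟨C, hC0, hC⟩ := hpart η hη
    refine ⟨C, hC0, fun ε hε hε1 => ?_⟩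
    set s : ℂ := 1 + ε + τ * I with hs
    have hsre : s.re = 1 + ε := by rw [hs]; simp
    have hs1 : 1 < s.re := by rw [hsre]; linarith
    refine (Complex.abs_re_le_norm _).trans ?_
    rw [LSeries_int hg hs1, norm_mul]
    have hsn : ‖s‖ ≤ 2 + |τ| := by
      have h2 : ‖s‖ ≤ ‖(1 + ε : ℂ)‖ + ‖(τ * I : ℂ)‖ := norm_add_le _ _
      have h3 : ‖(1 + ε : ℂ)‖ = 1 + ε := by
        have : (1 + ε : ℂ) = ((1 + ε : ℝ) : ℂ) := by push_cast; rfl
        rw [this, Complex.norm_real, Real.norm_eq_abs, abs_of_pos (by linarith)]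
      have h4 : ‖(τ * I : ℂ)‖ = |τ| := by simp
      linarith
    refine mul_le_mul hsn ?_ (norm_nonneg _) (by positivity)
    have hdom : IntegrableOn (fun t : ℝ => η * ((Nat.primeCounting ⌊t⌋₊ : ℝ) * t ^ (-(2 + ε))) +
        C * t ^ (-(2 + ε))) (Set.Ioi 1) :=
      ((integrable_pi hε).const_mul η).add
        ((integrableOn_Ioi_rpow_of_lt (by linarith) one_pos).const_mul C)
    have h5 : ‖∫ t in Set.Ioi (1 : ℝ), (∑ k ∈ Finset.Icc 1 ⌊t⌋₊, G k) *
        (t : ℂ) ^ (-(s + 1))‖ ≤ ∫ t in Set.Ioi (1 : ℝ),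
        (η * ((Nat.primeCounting ⌊t⌋₊ : ℝ) * t ^ (-(2 + ε))) + C * t ^ (-(2 + ε))) := by
      refine norm_integral_le_of_norm_le hdom ?_
      rw [ae_restrict_iff' measurableSet_Ioi]
      refine Filter.Eventually.of_forall fun t ht => ?_
      have ht0 : (0 : ℝ) < t := by
        have : (1 : ℝ) < t := ht
        linarith
      rw [norm_mul, Complex.norm_cpow_eq_rpow_re_of_pos ht0]
      have h6 : (-(s + 1)).re = -(2 + ε) := by
        rw [Complex.neg_re, Complex.add_re, hsre, Complex.one_re]; ring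
      rw [h6]
      calc ‖∑ k ∈ Finset.Icc 1 ⌊t⌋₊, G k‖ * t ^ (-(2 + ε))
          ≤ (η * Nat.primeCounting ⌊t⌋₊ + C) * t ^ (-(2 + ε)) :=
            mul_le_mul_of_nonneg_right (hC _) (by positivity)
        _ = _ := by ring
    refine h5.trans ?_
    rw [integral_add ((integrable_pi hε).const_mul η)
      ((integrableOn_Ioi_rpow_of_lt (by linarith) one_pos).const_mul C), integral_const_mul,
      integral_const_mul]
    have h7 : ∫ t in Set.Ioi (1 : ℝ), (Nat.primeCounting ⌊t⌋₊ : ℝ) * t ^ (-(2 + ε)) ≤ lam ε := by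
      rw [lam_int hε]
      have h8 : 0 ≤ ∫ t in Set.Ioi (1 : ℝ), (Nat.primeCounting ⌊t⌋₊ : ℝ) * t ^ (-(2 + ε)) := by
        refine setIntegral_nonneg measurableSet_Ioi fun t ht => ?_
        have ht0 : (0 : ℝ) < t := by
          have : (1 : ℝ) < t := ht
          linarith
        positivity
      nlinarith
    have h9 := integral_rpow_le hε
    nlinarith [mul_le_mul_of_nonneg_left h7 hη.le, mul_le_mul_of_nonneg_left h9 hC0]
  rw [Metric.tendsto_nhds]
  intro δ hδ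
  have hT : 0 < 2 + |τ| := by positivity
  obtain ⟨C, hC0, hC⟩ := hmain (δ / (4 * (2 + |τ|))) (by positivity)
  have hbig := lam_tendsto.eventually_gt_atTop (4 * (2 + |τ|) * C / δ)
  have hlt : ∀ᶠ ε : ℝ in 𝓝[>] 0, ε < 1 := by
    have : Set.Iio (1 : ℝ) ∈ 𝓝 (0 : ℝ) := Iio_mem_nhds one_pos
    exact mem_nhdsWithin_of_mem_nhds this
  filter_upwards [hbig, hlt, self_mem_nhdsWithin, lam_tendsto.eventually_gt_atTop 0]
    with ε h1 h2 h3 h4
  have hε : 0 < ε := h3
  rw [dist_zero_right, Real.norm_eq_abs, abs_div, abs_of_pos h4, div_lt_iff₀ h4]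
  refine (hC ε hε h2).trans_lt ?_
  have h5 : 4 * (2 + |τ|) * C < lam ε * δ := (div_lt_iff₀ hδ).1 h1
  have h6 : (2 + |τ|) * (δ / (4 * (2 + |τ|)) * lam ε + C) = δ * lam ε / 4 + (2 + |τ|) * C := by
    field_simp
  rw [h6]
  have h7 : 0 < δ * lam ε := mul_pos hδ h4
  linarith

/-- a bounded function with mean value `c` over the primes -/
theorem abel_mean (G : ℕ → ℂ) (B : ℝ) (hg : ∀ n, ‖G n‖ ≤ B) (c : ℝ)
    (hS : Tendsto (fun N : ℕ => (∑ n ∈ Finset.Icc 1 N, G n) /
      (Nat.primeCounting N : ℂ)) atTop (𝓝 c)) (τ : ℝ) :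
    Tendsto (fun ε : ℝ => (LSeries G (1 + ε + τ * I)).re / lam ε) (𝓝[>] 0)
      (𝓝 (if τ = 0 then c else 0)) := by
  classical
  set H : ℕ → ℂ := fun n => G n - c * ip n with hH
  have hHb : ∀ n, ‖H n‖ ≤ B + |c| := by
    intro n
    refine (norm_sub_le _ _).trans (add_le_add (hg n) ?_)
    rw [norm_mul, Complex.norm_real, Real.norm_eq_abs]
    exact mul_le_of_le_one_right (abs_nonneg _) (norm_ip_le n)
  have hpi : ∀ᶠ N : ℕ in atTop, (Nat.primeCounting N : ℂ) ≠ 0 := by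
    filter_upwards [Filter.eventually_ge_atTop 2] with N hN
    have : Nat.primeCounting N ≠ 0 := by
      rw [Ne, Nat.primeCounting_eq_zero_iff]
      omega
    exact_mod_cast this
  have hHS : Tendsto (fun N : ℕ => (∑ n ∈ Finset.Icc 1 N, H n) /
      (Nat.primeCounting N : ℂ)) atTop (𝓝 0) := by
    have h1 := hS.sub_const (c : ℂ)
    rw [sub_self] at h1
    refine h1.congr' ?_
    filter_upwards [hpi] with N hN
    rw [hH]
    simp only
    rw [Finset.sum_sub_distrib, ← Finset.mul_sum, sum_ip_eq, sub_div, mul_div_cancel_right₀ _ hN]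
  have h2 := abelG H (B + |c|) hHb hHS τ
  have hlt0 : ∀ᶠ ε : ℝ in 𝓝[>] 0, 0 < ε := self_mem_nhdsWithin
  have hsG : ∀ ε : ℝ, 0 < ε → LSeriesSummable G (1 + ε + τ * I) := by
    intro ε hε
    refine LSeriesSummable_of_bounded_of_one_lt_re (m := B) (fun n _ => hg n) ?_
    simp [hε]
  have hsi : ∀ ε : ℝ, 0 < ε → LSeriesSummable ip (1 + ε + τ * I) := by
    intro ε hε
    refine LSeriesSummable_of_bounded_of_one_lt_re (m := 1) (fun n _ => norm_ip_le n) ?_
    simp [hε]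
  have h3 : ∀ ε : ℝ, 0 < ε → LSeries G (1 + ε + τ * I) =
      LSeries H (1 + ε + τ * I) + c * LSeries ip (1 + ε + τ * I) := by
    intro ε hε
    have h4 : H = G - (c : ℂ) • ip := by
      funext n
      simp [hH]
    rw [h4, LSeries_sub (hsG ε hε) ((hsi ε hε).smul (c : ℂ)), LSeries_smul]
    ring
  have h5 : Tendsto (fun ε : ℝ => (LSeries ip (1 + ε + τ * I)).re / lam ε) (𝓝[>] 0)
      (𝓝 (if τ = 0 then 1 else 0)) := by
    by_cases hτ : τ = 0
    · rw [if_pos hτ]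
      refine tendsto_const_nhds.congr' ?_
      filter_upwards [lam_tendsto.eventually_gt_atTop 0] with ε h6
      have h7 : (1 + ε + τ * I : ℂ) = ((1 + ε : ℝ) : ℂ) := by
        rw [hτ]; push_cast; ring
      rw [h7, LSeries_ip_real, Complex.ofReal_re, div_self h6.ne']
    · rw [if_neg hτ]
      obtain ⟨C, hC⟩ := primeSum_bounded (1 : DirichletCharacter ℂ 1) τ (Or.inr hτ)
      have h6 : Tendsto (fun ε : ℝ => C / lam ε) (𝓝[>] 0) (𝓝 0) :=
        tendsto_const_nhds.div_atTop lam_tendsto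
      refine squeeze_zero_norm' ?_ h6
      filter_upwards [hC, lam_tendsto.eventually_gt_atTop 0] with ε h7 h8
      rw [norm_div, Real.norm_eq_abs, Real.norm_eq_abs, abs_of_pos h8]
      refine div_le_div_of_nonneg_right ?_ h8.le
      rw [LSeries_ip]
      have h9 : ∀ p : Nat.Primes, (1 : DirichletCharacter ℂ 1) p *
          ((p : ℕ) : ℂ) ^ (-(1 + ε + τ * I)) = ((p : ℕ) : ℂ) ^ (-(1 + ε + τ * I)) := by
        intro p
        rw [MulChar.one_apply (isUnit_of_subsingleton _), one_mul]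
      simp only [h9] at h7
      exact h7
  have h6 := h2.add (h5.const_mul c)
  have h7 : (0 : ℝ) + c * (if τ = 0 then 1 else 0) = if τ = 0 then c else 0 := by
    split_ifs <;> simp
  rw [h7] at h6
  refine h6.congr' ?_
  filter_upwards [hlt0] with ε hε
  rw [h3 ε hε, Complex.add_re, Complex.re_ofReal_mul]
  ring

end Pool.Agent.W540.BE
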