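import Pool.Agent.H26.Lib.R_seed8.W540.BE.Gram

set_option autoImplicit false

/-!
# The size of an Euler product near the edge
-/

namespace Pool.Agent.W540.BE

open Complex Filter Topology ComplexConjugate Pool.Agent.H341R2 Polynomial

section

variable {P : Type*} {N : P → ℕ}

/-- The logarithm of the absolute value of an Euler product near a point of the edge -/
theorem sizeP (hN : NormSys N) {Good : P → Prop} [DecidablePred Good]
    (hfin : {p | ¬ Good p}.Finite) (B : P → ℂ[X]) (ρ : ℂ)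
    (hB : ∀ p, ¬ Good p → (B p).eval (((N p : ℕ) : ℂ) ^ (-ρ)) ≠ 0)
    (a : P → ℂ) {K : ℝ} (ha : ∀ p, ‖a p‖ ≤ K) (ha0 : ∀ p, ¬ Good p → a p = 0)
    (G : ℝ → P → ℂ) {C : ℝ}
    (hG : ∀ ε : ℝ, 0 < ε → ∀ p, Good p →
      ‖G ε p - a p * ((N p : ℝ) ^ (-(1 + ε)) : ℝ)‖ ≤ C * (N p : ℝ) ^ (-2 : ℝ))
    {L : ℝ → ℂ}
    (hL : ∀ ε : ℝ, 0 < ε → L ε = ∏' p : P, if Good p then cexp (G ε p) else
      ((B p).eval (((N p : ℕ) : ℂ) ^ (-(ρ + ε))))⁻¹) :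
    ∃ C' : ℝ, ∀ᶠ ε : ℝ in 𝓝[>] 0, L ε ≠ 0 ∧
      |(EP N ε fun p => (a p).re) - Real.log ‖L ε‖| ≤ C' := by
  classical
  set S := hfin.toFinset with hS
  have hBcont : ∀ p : P, ContinuousAt (fun s : ℂ => (B p).eval (((N p : ℕ) : ℂ) ^ (-s))) ρ := by
    intro p
    have hpc : ((N p : ℕ) : ℂ) ≠ 0 := by
      have := hN.two_le p
      exact_mod_cast (by omega : N p ≠ 0)
    have h2 : ContinuousAt (fun s : ℂ => ((N p : ℕ) : ℂ) ^ (-s)) ρ :=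
      (continuousAt_const_cpow hpc).comp continuousAt_neg
    exact (B p).continuous.continuousAt.comp h2
  have hBlog : ∀ p, ¬ Good p → ∃ Cp : ℝ, ∀ᶠ ε : ℝ in 𝓝[>] 0,
      (B p).eval (((N p : ℕ) : ℂ) ^ (-(ρ + ε))) ≠ 0 ∧
      |Real.log ‖(B p).eval (((N p : ℕ) : ℂ) ^ (-(ρ + ε)))‖| ≤ Cp := by
    intro p hp
    have h1 : Tendsto (fun ε : ℝ => (B p).eval (((N p : ℕ) : ℂ) ^ (-(ρ + ε)))) (𝓝[>] 0)
        (𝓝 ((B p).eval (((N p : ℕ) : ℂ) ^ (-ρ)))) := (hBcont p).tendsto.comp (path_tendsto' ρ)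
    have h2 := (h1.norm.log (norm_ne_zero_iff.2 (hB p hp))).abs.isBoundedUnder_le
    obtain ⟨Cp, hCp⟩ := h2
    refine ⟨Cp, ?_⟩
    filter_upwards [h1.eventually_ne (hB p hp), Filter.eventually_map.1 hCp] with ε h3 h4
    exact ⟨h3, h4⟩
  have hBlog' : ∀ p, ∃ Cp : ℝ, ¬ Good p → ∀ᶠ ε : ℝ in 𝓝[>] 0,
      (B p).eval (((N p : ℕ) : ℂ) ^ (-(ρ + ε))) ≠ 0 ∧
      |Real.log ‖(B p).eval (((N p : ℕ) : ℂ) ^ (-(ρ + ε)))‖| ≤ Cp := by
    intro p
    by_cases hp : Good p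
    · exact ⟨0, fun h => absurd hp h⟩
    · obtain ⟨Cp, hCp⟩ := hBlog p hp
      exact ⟨Cp, fun _ => hCp⟩
  choose Cb hCb using hBlog'
  have hbd : ∀ᶠ ε : ℝ in 𝓝[>] 0, ∀ p ∈ S,
      (B p).eval (((N p : ℕ) : ℂ) ^ (-(ρ + ε))) ≠ 0 ∧
      |Real.log ‖(B p).eval (((N p : ℕ) : ℂ) ^ (-(ρ + ε)))‖| ≤ Cb p := by
    rw [Filter.eventually_all_finset]
    exact fun p hp => hCb p (hfin.mem_toFinset.1 hp)
  set K3 : ℝ := ∑' p, (N p : ℝ) ^ (-2 : ℝ) with hK3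
  refine ⟨(∑ p ∈ S, Cb p) + |C| * K3, ?_⟩
  filter_upwards [hbd, self_mem_nhdsWithin] with ε h1 h3
  have hε : (0 : ℝ) < ε := h3
  obtain ⟨hsum, hbd2⟩ := summable_and_boundP hN hε (G ε) a ha ha0 (hG ε hε)
  have h2 := hL ε hε
  have h4 := tprod_splitP hfin (G ε)
    (fun p => ((B p).eval (((N p : ℕ) : ℂ) ^ (-(ρ + ε))))⁻¹) hsum
  rw [h4] at h2
  have hprod : 0 < ∏ p ∈ S, ‖(B p).eval (((N p : ℕ) : ℂ) ^ (-(ρ + ε)))‖⁻¹ :=
    Finset.prod_pos fun p hp => inv_pos.2 (norm_pos_iff.2 (h1 p hp).1)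
  have hnorm : ‖L ε‖ = (∏ p ∈ S, ‖(B p).eval (((N p : ℕ) : ℂ) ^ (-(ρ + ε)))‖⁻¹) *
      Real.exp (∑' p, if Good p then G ε p else 0).re := by
    rw [h2, norm_mul, Complex.norm_exp, norm_prod]
    simp only [norm_inv, hS]
  have hpos : 0 < ‖L ε‖ := by
    rw [hnorm]
    exact mul_pos hprod (Real.exp_pos _)
  refine ⟨norm_pos_iff.1 hpos, ?_⟩
  have hlog : Real.log ‖L ε‖ = (∑ p ∈ S,
      -Real.log ‖(B p).eval (((N p : ℕ) : ℂ) ^ (-(ρ + ε)))‖) +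
        (∑' p, if Good p then G ε p else 0).re := by
    rw [hnorm, Real.log_mul hprod.ne' (Real.exp_pos _).ne', Real.log_exp, Real.log_prod]
    · congr 1
      exact Finset.sum_congr rfl fun p _ => Real.log_inv _
    · intro p hp
      exact inv_ne_zero (norm_ne_zero_iff.2 (h1 p hp).1)
  have hC : |∑ p ∈ S, -Real.log ‖(B p).eval (((N p : ℕ) : ℂ) ^ (-(ρ + ε)))‖| ≤
      ∑ p ∈ S, Cb p := by
    refine (Finset.abs_sum_le_sum_abs _ _).trans (Finset.sum_le_sum fun p hp => ?_)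
    rw [abs_neg]
    exact (h1 p hp).2
  rw [hlog]
  have h5 : (EP N ε fun p => (a p).re) - ((∑ p ∈ S,
      -Real.log ‖(B p).eval (((N p : ℕ) : ℂ) ^ (-(ρ + ε)))‖) +
        (∑' p, if Good p then G ε p else 0).re) =
      -(∑ p ∈ S, -Real.log ‖(B p).eval (((N p : ℕ) : ℂ) ^ (-(ρ + ε)))‖) +
        -((∑' p, if Good p then G ε p else 0).re - (EP N ε fun p => (a p).re)) := by ring
  rw [h5]
  refine (abs_add_le _ _).trans (add_le_add ?_ ?_)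
  · rwa [abs_neg]
  · rwa [abs_neg]

end

/-- the order of a meromorphic function at the end of the path, and its size -/
theorem order_of_size {Λ : ℂ → ℂ} {ρ : ℂ} (hΛ : MeromorphicAt Λ ρ)
    (hne : ∀ᶠ ε : ℝ in 𝓝[>] 0, Λ (ρ + ε) ≠ 0) :
    ∃ m : ℤ, meromorphicOrderAt Λ ρ = m ∧
      Tendsto (fun ε : ℝ => Real.log ‖Λ (ρ + ε)‖ / Real.log (1 / ε)) (𝓝[>] 0)
        (𝓝 (-(m : ℝ))) := by
  have hfreq : ∃ᶠ z in 𝓝[≠] ρ, Λ z ≠ 0 := by
    have hpath : Tendsto (fun ε : ℝ => ρ + ε) (𝓝[>] 0) (𝓝[≠] ρ) := by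
      rw [tendsto_nhdsWithin_iff]
      refine ⟨path_tendsto' ρ, ?_⟩
      filter_upwards [self_mem_nhdsWithin] with ε hε
      have hε' : (0 : ℝ) < ε := hε
      simp only [Set.mem_compl_iff, Set.mem_singleton_iff, add_eq_left]
      exact_mod_cast hε'.ne'
    exact hpath.frequently hne.frequently
  have hnt : meromorphicOrderAt Λ ρ ≠ ⊤ := by
    rw [Ne, meromorphicOrderAt_eq_top_iff]
    intro h
    exact hfreq (h.mono fun z hz => not_not.2 hz)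
  obtain ⟨m, hm⟩ := WithTop.ne_top_iff_exists.1 hnt
  refine ⟨m, hm.symm, ?_⟩
  obtain ⟨C, hC⟩ := log_norm_meromorphic hΛ hm.symm
  have hlog : Tendsto (fun ε : ℝ => Real.log (1 / ε)) (𝓝[>] 0) atTop := by
    have h1 := tendsto_neg_atBot_atTop.comp Real.tendsto_log_nhdsGT_zero
    refine h1.congr fun ε => ?_
    rw [one_div, Real.log_inv]
    rfl
  have hlim : Tendsto (fun ε : ℝ => C / Real.log (1 / ε)) (𝓝[>] 0) (𝓝 0) :=
    tendsto_const_nhds.div_atTop hlog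
  rw [tendsto_iff_dist_tendsto_zero]
  refine squeeze_zero' (Filter.Eventually.of_forall fun _ => dist_nonneg) ?_ hlim
  filter_upwards [hC, hlog.eventually_gt_atTop 0] with ε h1 h2
  rw [Real.dist_eq, sub_neg_eq_add]
  have h3 : Real.log ‖Λ (ρ + ε)‖ / Real.log (1 / ε) + m =
      (Real.log ‖Λ (ρ + ε)‖ - m * Real.log ε) / Real.log (1 / ε) := by
    have h4 : Real.log (1 / ε) = -Real.log ε := by rw [one_div, Real.log_inv]
    rw [div_add' _ _ _ h2.ne', h4]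
    ring
  rw [h3, abs_div, abs_of_pos h2]
  exact div_le_div_of_nonneg_right h1.2 h2.le

/-- comparison of the two normalisations -/
theorem size_compare {y ℓ : ℝ → ℝ} {M C : ℝ}
    (hy : ∀ᶠ ε : ℝ in 𝓝[>] 0, |y ε| ≤ M * lam ε)
    (hC : ∀ᶠ ε : ℝ in 𝓝[>] 0, |y ε - ℓ ε| ≤ C) :
    Tendsto (fun ε : ℝ => y ε / lam ε - ℓ ε / Real.log (1 / ε)) (𝓝[>] 0) (𝓝 0) := by
  obtain ⟨C3, hC3⟩ := lam_bounded
  have hlog : Tendsto (fun ε : ℝ => Real.log (1 / ε)) (𝓝[>] 0) atTop := by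
    have h1 := tendsto_neg_atBot_atTop.comp Real.tendsto_log_nhdsGT_zero
    refine h1.congr fun ε => ?_
    rw [one_div, Real.log_inv]
    rfl
  have hlim : Tendsto (fun ε : ℝ => (M * C3 + C) / Real.log (1 / ε)) (𝓝[>] 0) (𝓝 0) :=
    tendsto_const_nhds.div_atTop hlog
  refine squeeze_zero_norm' ?_ hlim
  filter_upwards [hy, hC, hC3, hlog.eventually_gt_atTop 0, lam_tendsto.eventually_gt_atTop 0]
    with ε h1 h2 h3 h4 h5
  rw [Real.norm_eq_abs]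
  have e0 : Real.log (1 / ε) = -Real.log ε := by rw [one_div, Real.log_inv]
  have e1 : y ε / lam ε - ℓ ε / Real.log (1 / ε) =
      ((y ε / lam ε) * (Real.log (1 / ε) - lam ε) + (y ε - ℓ ε)) / Real.log (1 / ε) := by
    field_simp
    ring
  rw [e1, abs_div, abs_of_pos h4]
  refine div_le_div_of_nonneg_right ?_ h4.le
  refine (abs_add_le _ _).trans (add_le_add ?_ h2)
  rw [abs_mul]
  have h6 : |y ε / lam ε| ≤ M := by
    rw [abs_div, abs_of_pos h5, div_le_iff₀ h5]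
    exact h1
  have h7 : |Real.log (1 / ε) - lam ε| ≤ C3 := by
    rw [e0, abs_sub_comm]
    have : lam ε - -Real.log ε = lam ε + Real.log ε := by ring
    rw [this]
    exact h3
  exact mul_le_mul h6 h7 (abs_nonneg _) ((abs_nonneg _).trans h6)

end Pool.Agent.W540.BE
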