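import Pool.Agent.H26.Lib.R_seed8.W540.BE.Core2

set_option autoImplicit false

/-!
# Sizes and orders at the edge for all Artin twists: final form
-/

namespace Pool.Agent.W540.BE

open Complex Filter Topology ComplexConjugate Pool.Agent.H341R2 NumberField IsDedekindDomain
  Pool.Agent.W401.Cheb Polynomial

section

variable {G : Type*} [Group G]

theorem finrank_end_irr {n : ℕ} (ρ : Representation ℂ G (Fin n → ℂ)) (hi : ρ.IsIrreducible) :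
    Module.finrank ℂ (ρ.IntertwiningMap ρ) = 1 := by
  have h1 := Representation.IsIrreducible.algebraMap_intertwiningMap_bijective_of_isAlgClosed
    (ρ := ρ)
  have h2 := LinearEquiv.ofBijective (Algebra.linearMap ℂ (ρ.IntertwiningMap ρ)) h1
  rw [← h2.finrank_eq, Module.finrank_self]

theorem finrank_hom_irr {n n' : ℕ} (ρ : Representation ℂ G (Fin n → ℂ))
    (σ : Representation ℂ G (Fin n' → ℂ)) (hi : ρ.IsIrreducible) (hi' : σ.IsIrreducible)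
    (he : IsEmpty (ρ.Equiv σ)) : Module.finrank ℂ (ρ.IntertwiningMap σ) = 0 := by
  have := hi
  have := hi'
  have h1 : Subsingleton (ρ.IntertwiningMap σ) := inferInstance
  exact Module.finrank_zero_of_subsingleton

end

/-- `dim Hom(ρ_k, ρ_l)` if the two heights are equal, and zero otherwise -/
noncomputable def gm {G : Type*} [Group G] {κ : Type*} {n : κ → ℕ}
    (ρ : ∀ k, Representation ℂ G (Fin (n k) → ℂ)) (τ : κ → ℝ) (k l : κ) : ℝ :=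
  open scoped Classical in
  if τ k = τ l then (Module.finrank ℂ ((ρ k).IntertwiningMap (ρ l)) : ℝ) else 0

theorem core3 (F : Type) [Field F] [NumberField F] (b : ℕ) (w : ℝ)
    (α : HeightOneSpectrum (𝓞 F) → Fin b → ℂ)
    (hα : ∀ᶠ v in cofinite, ∀ j, ‖α v j‖ = (nm F v : ℝ) ^ w)
    {κ : Type*} (K : Finset κ) (n : κ → ℕ)
    (ρ : ∀ k, Representation ℂ (GK F) (Fin (n k) → ℂ))
    (hopen : ∀ k ∈ K, ∃ U : Subgroup (GK F), IsOpen (U : Set (GK F)) ∧ ∀ u ∈ U, ρ k u = 1)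
    (τ : κ → ℝ)
    (B : κ → HeightOneSpectrum (𝓞 F) → ℂ[X])
    (hB : ∀ k ∈ K, ∀ᶠ v in cofinite, ∀ σ : GK F, IsFrob v σ → ∀ z : ℂ,
      (B k v).eval z = ∏ j, LinearMap.det (1 - (α v j * z) • ρ k σ⁻¹))
    (hB0 : ∀ k ∈ K, ∀ v, (B k v).eval (((nm F v : ℕ) : ℂ) ^ (-(w + 1 + τ k * I : ℂ))) ≠ 0)
    (L : κ → ℂ → ℂ)
    (hL : ∀ k ∈ K, ∀ s : ℂ, w + 1 < s.re →
      L k s = ∏' v, ((B k v).eval (((nm F v : ℕ) : ℂ) ^ (-s)))⁻¹) :
    (∀ k ∈ K, ∀ᶠ ε : ℝ in 𝓝[>] 0, L k (w + 1 + τ k * I + ε) ≠ 0) ∧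
    (∀ C η : ℝ, 0 < η → ∀ᶠ ε : ℝ in 𝓝[>] 0, ∀ c : κ → ℝ, (∀ k ∈ K, |c k| ≤ C) →
      (∑ k ∈ K, c k * (Real.log ‖L k (w + 1 + τ k * I + ε)‖ / Real.log (1 / ε))) ^ 2 ≤
        (b : ℝ) ^ 2 * (∑ k ∈ K, ∑ l ∈ K, (c k * c l) * gm ρ τ k l) + η) ∧
    ((∀ k ∈ K, ∀ l ∈ K, k ≠ l → gm ρ τ k l = 0) → ∀ η : ℝ, 0 < η → ∀ᶠ ε : ℝ in 𝓝[>] 0,
      ∑ k ∈ K, (Real.log ‖L k (w + 1 + τ k * I + ε)‖ / Real.log (1 / ε)) ^ 2 / gm ρ τ k k ≤
        (b : ℝ) ^ 2 + η) ∧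
    (∀ Λ : κ → ℂ → ℂ, (∀ k ∈ K, MeromorphicAt (Λ k) (w + 1 + τ k * I) ∧
      ∀ᶠ s in 𝓝 (w + 1 + τ k * I : ℂ), w + 1 < s.re → Λ k s = L k s) →
      ∃ m : κ → ℤ, (∀ k ∈ K, meromorphicOrderAt (Λ k) (w + 1 + τ k * I) = m k) ∧
        (∀ c : κ → ℝ, (∑ k ∈ K, c k * m k) ^ 2 ≤
          (b : ℝ) ^ 2 * ∑ k ∈ K, ∑ l ∈ K, (c k * c l) * gm ρ τ k l) ∧
        ((∀ k ∈ K, ∀ l ∈ K, k ≠ l → gm ρ τ k l = 0) →
          ∑ k ∈ K, (m k : ℝ) ^ 2 / gm ρ τ k k ≤ (b : ℝ) ^ 2) ∧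
        ((∀ k ∈ K, (ρ k).IsIrreducible) →
          (∀ k ∈ K, ∀ l ∈ K, k ≠ l → τ k = τ l → IsEmpty ((ρ k).Equiv (ρ l))) →
          ∑ k ∈ K, (m k) ^ 2 ≤ (b : ℤ) ^ 2 ∧ (K.filter fun k => m k ≠ 0).card ≤ b ^ 2)) := by
  classical
  obtain ⟨h1, ⟨C0, h2⟩, h3⟩ := core2 F b w α hα K n ρ hopen τ B hB hB0 L hL
  have hg1 : ∀ k ∈ K, gm ρ τ k k = 0 ∨ 1 ≤ gm ρ τ k k := by
    intro k _
    unfold gm
    rw [if_pos rfl]
    rcases Nat.eq_zero_or_pos (Module.finrank ℂ ((ρ k).IntertwiningMap (ρ k))) with h | h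
    · left
      rw [h]
      simp
    · right
      exact_mod_cast h
  have h3' : ∀ C η : ℝ, 0 < η → ∀ᶠ ε : ℝ in 𝓝[>] 0, ∀ c : κ → ℝ, (∀ k ∈ K, |c k| ≤ C) →
      (∑ k ∈ K, c k * (Real.log ‖L k (w + 1 + τ k * I + ε)‖ / Real.log (1 / ε))) ^ 2 ≤
        (b : ℝ) ^ 2 * (∑ k ∈ K, ∑ l ∈ K, (c k * c l) * gm ρ τ k l) + η := by
    intro C η hη
    filter_upwards [h3 C η hη] with ε h c hc
    refine (h c hc).trans (le_of_eq ?_)
    unfold gm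
    rfl
  have hdis := fun (hg0 : ∀ k ∈ K, ∀ l ∈ K, k ≠ l → gm ρ τ k l = 0) (η : ℝ) (hη : 0 < η) =>
    disjoint_of_gram K (gm ρ τ) b
      (fun k ε => Real.log ‖L k (w + 1 + τ k * I + ε)‖ / Real.log (1 / ε)) hg0 hg1 h2 h3' hη
  refine ⟨h1, h3', hdis, fun Λ hΛ => ?_⟩
  have hord : ∀ k, ∃ m : ℤ, k ∈ K → meromorphicOrderAt (Λ k) (w + 1 + τ k * I) = m ∧
      Tendsto (fun ε : ℝ => Real.log ‖L k (w + 1 + τ k * I + ε)‖ / Real.log (1 / ε)) (𝓝[>] 0)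
        (𝓝 (-(m : ℝ))) := by
    intro k
    by_cases hk : k ∈ K
    swap
    · exact ⟨0, fun h => absurd h hk⟩
    have hev : ∀ᶠ ε : ℝ in 𝓝[>] 0, Λ k (w + 1 + τ k * I + ε) = L k (w + 1 + τ k * I + ε) := by
      have h4 := (path_tendsto' (w + 1 + τ k * I : ℂ)).eventually (hΛ k hk).2
      filter_upwards [h4, self_mem_nhdsWithin] with ε h5 h6
      have hε : (0 : ℝ) < ε := h6
      exact h5 (by simp [hε])
    have hne : ∀ᶠ ε : ℝ in 𝓝[>] 0, Λ k (w + 1 + τ k * I + ε) ≠ 0 := by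
      filter_upwards [hev, h1 k hk] with ε h5 h6
      rw [h5]
      exact h6
    obtain ⟨m, hm1, hm2⟩ := order_of_size (hΛ k hk).1 hne
    refine ⟨m, fun _ => ⟨hm1, hm2.congr' ?_⟩⟩
    filter_upwards [hev] with ε h5
    rw [h5]
  choose m hm using hord
  have hgram : ∀ c : κ → ℝ, (∑ k ∈ K, c k * m k) ^ 2 ≤
      (b : ℝ) ^ 2 * ∑ k ∈ K, ∑ l ∈ K, (c k * c l) * gm ρ τ k l := by
    intro c
    refine le_of_forall_pos_le_add fun η hη => ?_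
    have hlim : Tendsto (fun ε : ℝ => (∑ k ∈ K, c k *
        (Real.log ‖L k (w + 1 + τ k * I + ε)‖ / Real.log (1 / ε))) ^ 2) (𝓝[>] 0)
        (𝓝 ((∑ k ∈ K, c k * (-(m k : ℝ))) ^ 2)) :=
      (tendsto_finsetSum _ fun k hk => ((hm k hk).2.const_mul (c k))).pow 2
    have e1 : (∑ k ∈ K, c k * (-(m k : ℝ))) ^ 2 = (∑ k ∈ K, c k * m k) ^ 2 := by
      have : ∑ k ∈ K, c k * (-(m k : ℝ)) = -∑ k ∈ K, c k * m k := by
        rw [← Finset.sum_neg_distrib]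
        exact Finset.sum_congr rfl fun k _ => by ring
      rw [this, neg_sq]
    rw [e1] at hlim
    refine le_of_tendsto hlim ?_
    filter_upwards [h3' (∑ k ∈ K, |c k|) η hη] with ε h4
    exact h4 c fun k hk => Finset.single_le_sum (f := fun k => |c k|) (fun k _ => abs_nonneg _) hk
  have hdis' : (∀ k ∈ K, ∀ l ∈ K, k ≠ l → gm ρ τ k l = 0) →
          ∑ k ∈ K, (m k : ℝ) ^ 2 / gm ρ τ k k ≤ (b : ℝ) ^ 2 := by
    intro hg0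
    refine le_of_forall_pos_le_add fun η hη => ?_
    have hlim : Tendsto (fun ε : ℝ => ∑ k ∈ K,
        (Real.log ‖L k (w + 1 + τ k * I + ε)‖ / Real.log (1 / ε)) ^ 2 / gm ρ τ k k) (𝓝[>] 0)
        (𝓝 (∑ k ∈ K, (-(m k : ℝ)) ^ 2 / gm ρ τ k k)) :=
      tendsto_finsetSum _ fun k hk => ((hm k hk).2.pow 2).div_const _
    simp only [neg_sq] at hlim
    exact le_of_tendsto hlim (hdis hg0 η hη)
  refine ⟨m, fun k hk => (hm k hk).1, hgram, hdis', fun hirr hne => ?_⟩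
  have hg0 : ∀ k ∈ K, ∀ l ∈ K, k ≠ l → gm ρ τ k l = 0 := by
    intro k hk l hl hkl
    unfold gm
    split_ifs with hτ
    · rw [finrank_hom_irr (ρ k) (ρ l) (hirr k hk) (hirr l hl) (hne k hk l hl hkl hτ)]
      simp
    · rfl
  have hgk : ∀ k ∈ K, gm ρ τ k k = 1 := by
    intro k hk
    unfold gm
    rw [if_pos rfl, finrank_end_irr (ρ k) (hirr k hk)]
    simp
  have h4 := hdis' hg0
  have h5 : ∑ k ∈ K, (m k : ℝ) ^ 2 / gm ρ τ k k = ((∑ k ∈ K, (m k) ^ 2 : ℤ) : ℝ) := by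
    push_cast
    exact Finset.sum_congr rfl fun k hk => by rw [hgk k hk, div_one]
  rw [h5] at h4
  have h6 : ∑ k ∈ K, (m k) ^ 2 ≤ (b : ℤ) ^ 2 := by exact_mod_cast h4
  refine ⟨h6, ?_⟩
  have h7 : ((K.filter fun k => m k ≠ 0).card : ℤ) ≤ ∑ k ∈ K, (m k) ^ 2 := by
    rw [Finset.card_eq_sum_ones]
    push_cast
    rw [Finset.sum_filter]
    refine Finset.sum_le_sum fun k _ => ?_
    split_ifs with h8
    · have := Int.one_le_abs h8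
      nlinarith [sq_abs (m k)]
    · positivity
  exact_mod_cast h7.trans h6

end Pool.Agent.W540.BE
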